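import Pool.Agent.N198.TB.Def
import Pool.Agent.N993.CoreG

/-!
# TB/EXT: box distributions modulo 2 at the level `N`
-/

set_option autoImplicit false
set_option linter.unusedSectionVars false

namespace Pool.Agent.N31.TB

open Finset Pool.Agent.H916R2 Pool.Agent.N992 Pool.Agent.N993 Pool.Agent.N198.TB

set_option allowUnsafeReducibility true in
attribute [local semireducible] cyc

section

variable {ι : Type} [Fintype ι] [LinearOrder ι] {n : ι → ℕ} [∀ i, NeZero (n i)] {N : ℕ} [NeZero N]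

lemma adm (hn : ∀ i, (n i).Prime ∧ n i % 2 = 1) : Adm' n := fun i => Or.inl (hn i)

lemma not_flag (hn : ∀ i, (n i).Prime ∧ n i % 2 = 1) (a : ∀ i, ZMod (n i)) : ¬ Flag a := by
  rintro ⟨i, hi, -⟩
  exact not_four_of_prime (hn i).1 hi

lemma hfree (hn : ∀ i, (n i).Prime ∧ n i % 2 = 1) (i : ι) : (cyc n).c i ≠ 1 :=
  neg_one_ne_one (Or.inl (hn i))

/-- the distribution relation at the level `N` -/
lemma dist_pt (hn : ∀ i, (n i).Prime ∧ n i % 2 = 1)
    (hco : Pairwise (fun i j => (n i).Coprime (n j)))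
    (hN : ∏ i, n i = N) (E : (∀ i, ZMod (n i)) ≃+* ZMod N) {f : (cyc n).Pt → ℤ}
    (hf : (cyc n).IsD0 univ f) (p d : ℕ) (hp : p.Prime) (hpd : p * d = N) (a : ZMod N) :
    ∑ k ∈ range p, f (pt (E.symm (a + (k : ZMod N) * (d : ZMod N)))) =
      f (pt (E.symm ((p : ZMod N) * a))) := by
  obtain ⟨i, -, hpi⟩ : ∃ i ∈ (univ : Finset ι), p ∣ n i := by
    rw [← (Nat.Prime.prime hp).dvd_finsetProd_iff, hN]
    exact ⟨d, hpd.symm⟩
  obtain rfl : p = n i := (Nat.prime_dvd_prime_iff_eq hp (hn i).1).mp hpi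
  obtain ⟨M, hM⟩ : ∃ M, M = ∏ l ∈ univ.erase i, n l := ⟨_, rfl⟩
  have hNM : n i * M = N := by rw [hM, Finset.mul_prod_erase univ n (mem_univ i), hN]
  obtain rfl : d = M := Nat.eq_of_mul_eq_mul_left hp.pos (hpd.trans hNM.symm)
  have hcop : (n i).Coprime d := by
    rw [hM]
    exact Nat.Coprime.prod_right fun l hl => hco (Finset.ne_of_mem_erase hl).symm
  have hfact : Fact (n i).Prime := ⟨hp⟩
  have hMu : IsUnit ((d : ℕ) : ZMod (n i)) := by
    rw [ZMod.isUnit_iff_coprime]; exact hcop.symm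
  have h2 : E.symm (((n i : ℕ) : ZMod N) * a) = (n i) • E.symm a := by
    rw [map_mul, map_natCast, nsmul_eq_mul]
  have hterm : ∀ k : ℕ, E.symm (a + (k : ZMod N) * (d : ZMod N)) =
      Function.update (E.symm a) i (E.symm a i + (k : ZMod (n i)) * (d : ZMod (n i))) := by
    intro k
    have e1 : (k : ZMod N) * (d : ZMod N) = ((k * d : ℕ) : ZMod N) := by push_cast; rfl
    rw [e1, map_add, map_natCast]
    funext l
    by_cases hl : l = i
    · subst hl
      rw [Function.update_self, Pi.add_apply, Pi.natCast_apply]; push_cast; rfl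
    · rw [Function.update_of_ne hl, Pi.add_apply, Pi.natCast_apply]
      have : ((k * d : ℕ) : ZMod (n l)) = 0 := by
        rw [ZMod.natCast_eq_zero_iff, hM]
        exact (Finset.dvd_prod_of_mem n (Finset.mem_erase.mpr ⟨hl, mem_univ l⟩)).mul_left k
      rw [this, add_zero]
  have h3 := ext_prime (adm hn) hco hf (mem_univ i) (hn i).1 (hn i).2 (a := E.symm a)
    (fun i hi => absurd (mem_univ i) hi)
  rw [ext_of_not f (not_flag hn _)] at h3
  rw [h2, ← h3]
  simp only [hterm]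
  refine sum_bij (fun k _ => E.symm a i + (k : ZMod (n i)) * (d : ZMod (n i)))
    (fun _ _ => mem_univ _) ?_ ?_ (fun _ _ => (ext_of_not f (not_flag hn _)).symm)
  · intro k hk k' hk' h
    have h3 : (k : ZMod (n i)) = (k' : ZMod (n i)) := hMu.mul_right_cancel (add_left_cancel h)
    rw [ZMod.natCast_eq_natCast_iff'] at h3
    rwa [Nat.mod_eq_of_lt (mem_range.mp hk), Nat.mod_eq_of_lt (mem_range.mp hk')] at h3
  · intro j _
    obtain ⟨u, hu⟩ := hMu
    refine ⟨((j - E.symm a i) * (u⁻¹ : (ZMod (n i))ˣ)).val, mem_range.mpr (ZMod.val_lt _), ?_⟩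
    rw [ZMod.natCast_zmod_val, ← hu, mul_assoc, Units.inv_mul, mul_one, add_sub_cancel]

/-- TB/EXT, first part -/
theorem oddDist_two (hn : ∀ i, (n i).Prime ∧ n i % 2 = 1)
    (hco : Pairwise (fun i j => (n i).Coprime (n j)))
    (hN : ∏ i, n i = N) (E : (∀ i, ZMod (n i)) ≃+* ZMod N) {f : (cyc n).Pt → ℤ}
    (hf : (cyc n).IsD univ f) (hf1 : (cyc n).Ty 1 univ f) (hf0 : f (fun _ => none) = 0) :
    OddDist (fun b : ZMod N => ((f (pt (E.symm b)) : ℤ) : ZMod 2)) := by
  have hf' : (cyc n).IsD0 univ f := hf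
  have hc : ∀ x, f ((cyc n).act (cyc n).c x) = f x := by
    intro x
    have h1 := hf1 x (fun i hi => absurd (mem_univ i) hi)
    rw [Dat.T_triv (Dat.triv_int _), one_smul] at h1
    exact h1
  refine ⟨?_, ?_, ?_⟩
  · intro a
    have h1 : pt (E.symm (-a)) = (cyc n).act (cyc n).c (pt (E.symm a)) := by
      rw [map_neg, pt_neg]
    rw [h1, hc, CharTwo.neg_eq]
  · intro a ha
    have h1 : pt (E.symm a) = fun _ => none := by
      funext i
      have : Fact (n i).Prime := ⟨(hn i).1⟩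
      have h2 : E.symm a i + E.symm a i = 0 := by
        rw [← Pi.add_apply, ← map_add, ha, map_zero]; rfl
      have h3 : (2 : ZMod (n i)) ≠ 0 := by
        intro h
        have h4 : ((2 : ℕ) : ZMod (n i)) = 0 := by exact_mod_cast h
        rw [ZMod.natCast_eq_zero_iff] at h4
        have h5 := (Nat.prime_dvd_prime_iff_eq (hn i).1 Nat.prime_two).1 h4
        have h6 := (hn i).2
        omega
      have h4 : E.symm a i = 0 := by
        rw [← two_mul] at h2
        exact (mul_eq_zero.1 h2).resolve_left h3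
      refine pt_of_not ?_
      rw [h4]
      exact Pool.Agent.N993.not_isUnit_zero (adm hn)
    rw [h1, hf0, Int.cast_zero]
  · intro p d hp hpd a
    have h1 := dist_pt hn hco hN E hf' p d hp hpd a
    rw [← h1]
    push_cast
    rfl

lemma pt_unit_mul (v : (cyc n).GG) {a a' : ∀ i, ZMod (n i)} (h : ∀ i, a' i = vl (v i) * a i) :
    pt a' = (cyc n).act v (pt a) := by
  funext j
  by_cases hu : IsUnit (a j)
  · obtain ⟨w, hw1, hw2⟩ := pt_of_isUnit hu
    rw [Dat.act_apply_some hw1]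
    refine pt_of_eq ?_
    rw [vl_mul, hw2, h]
  · rw [Dat.act_apply_none (pt_of_not hu)]
    refine pt_of_not ?_
    rw [h]
    intro h'
    exact hu ((vl_isUnit (v j)).mul_left_iff.mp h')

/-- TB/EXT, second part: Galois invariance -/
theorem galois_two (hn : ∀ i, (n i).Prime ∧ n i % 2 = 1)
    (hco : Pairwise (fun i j => (n i).Coprime (n j)))
    (hN : ∏ i, n i = N) (E : (∀ i, ZMod (n i)) ≃+* ZMod N) {f : (cyc n).Pt → ℤ}
    (hf : (cyc n).IsD univ f) (hf1 : (cyc n).Ty 1 univ f) (x : ZMod N → ℤ) (hx : Rel x)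
    (u : (ZMod N)ˣ) :
    2 ∣ ∑ b, x b * f (pt (E.symm ((u : ZMod N) * b))) - ∑ b, x b * f (pt (E.symm b)) := by
  have hsupp : ∀ x : (cyc n).Pt, (cyc n).Supp univ x := fun x i hi => absurd (mem_univ i) hi
  obtain ⟨v, hv⟩ : ∃ v : (cyc n).GG, ∀ i, vl (v i) = E.symm (u : ZMod N) i := by
    have h1 : ∀ i, IsUnit (E.symm (u : ZMod N) i) := fun i =>
      ((u.isUnit).map E.symm).map (Pi.evalRingHom (fun i => ZMod (n i)) i)
    exact ⟨fun i => (h1 i).unit, fun i => (h1 i).unit_spec⟩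
  have hpt : ∀ b : ZMod N, pt (E.symm ((u : ZMod N) * b)) = (cyc n).act v (pt (E.symm b)) := by
    intro b
    refine pt_unit_mul v fun i => ?_
    rw [map_mul, Pi.mul_apply, hv]
  obtain ⟨g, hg, hg2⟩ := Dat.coh (Dat.triv_int _) (hfree hn) (θ := 1) (by norm_num) hf hf1 v
  have hg0 : (cyc n).IsD0 univ g := hg
  have hg3 : ∀ y, f ((cyc n).act v y) - f y = g y + g ((cyc n).act (cyc n).c y) := by
    intro y
    have h1 := hg2 y (hsupp y)
    rw [Pi.sub_apply, Dat.T_triv (Dat.triv_int _), Pi.add_apply, Pi.smul_apply,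
      Dat.T_triv (Dat.triv_int _), one_smul] at h1
    exact h1
  set h : (cyc n).Pt → ℚ := fun y => (g y : ℚ) - (g ((cyc n).act (cyc n).c y) : ℚ) with hh
  have hhD : (cyc n).IsD0 univ h := (hg0.cast).sub ((hg0.act (cyc n).c).cast)
  have hho : ∀ y, (cyc n).Supp univ y → h ((cyc n).act (cyc n).c y) = - h y := by
    intro y _
    rw [hh]
    beta_reduce
    rw [Dat.act_c_c]
    ring
  have hdist := oddDist_ext (adm hn) hco univ hN 1 (fun i hi => absurd (mem_univ i) hi)
    (fun i _ => Nat.coprime_one_left _) hhD hho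
  have hrat := Pool.Agent.N998.rat_zero _ hdist x hx
  have hE : ∀ b : ZMod N, (fun i => ((1 * b.val : ℕ) : ZMod (n i))) = E.symm b := by
    intro b
    rw [one_mul]
    apply E.injective
    rw [← E_natCast E, ZMod.natCast_zmod_val, RingEquiv.apply_symm_apply]
  simp only [hE, ext_of_not h (not_flag hn _)] at hrat
  have h5 : ∑ b, x b * g (pt (E.symm b)) =
      ∑ b, x b * g ((cyc n).act (cyc n).c (pt (E.symm b))) := by
    have h6 : ∑ b, (x b : ℚ) * g (pt (E.symm b)) =
        ∑ b, (x b : ℚ) * g ((cyc n).act (cyc n).c (pt (E.symm b))) := by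
      rw [← sub_eq_zero, ← sum_sub_distrib, ← hrat]
      refine sum_congr rfl fun b _ => ?_
      rw [hh]
      ring
    exact_mod_cast h6
  refine ⟨∑ b, x b * g (pt (E.symm b)), ?_⟩
  rw [two_mul]
  nth_rw 2 [h5]
  rw [← sum_sub_distrib, ← sum_add_distrib]
  refine sum_congr rfl fun b _ => ?_
  rw [← mul_sub, hpt, hg3]
  ring

end

end Pool.Agent.N31.TB
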